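import Pool.Agent.Helper26.WR.Stmts

set_option autoImplicit false

namespace Pool.Agent.Helper26.WR

open Pool.Agent.Helper21.DN

universe u

theorem ind_hom (p : ℕ) [Fact p.Prime] (A : Type) [Group A] [Finite A] (hA : IsPGroup p A)
    (S : Subgroup A) (hS : S ≠ ⊤) :
    ∃ φ : A →* Multiplicative (ZMod p), φ ≠ 1 ∧ ∀ a ∈ S, φ a = 1 := by
  have hp : p.Prime := Fact.out
  obtain ⟨m, hm⟩ := (IsPGroup.iff_card).1 hA
  obtain ⟨n, hn⟩ := (IsPGroup.iff_card).1 (hA.to_subgroup S)
  have hnm : n < m := by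
    by_contra hcon
    push Not at hcon
    have h1 : Nat.card A ≤ Nat.card S := by
      rw [hm, hn]
      exact Nat.pow_le_pow_right hp.pos hcon
    exact hS (Subgroup.eq_top_of_le_card S h1)
  obtain ⟨k, rfl⟩ : ∃ k, m = k + 1 := ⟨m - 1, by omega⟩
  obtain ⟨K, hK, hSK⟩ := Sylow.exists_subgroup_card_pow_prime_le p
    (show p ^ k ∣ Nat.card A by rw [hm]; exact pow_dvd_pow p (Nat.le_succ k)) S hn
    (Nat.lt_succ_iff.1 hnm)
  have hidx : K.index = p := by
    have h1 := K.card_mul_index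
    rw [hK, hm, pow_succ] at h1
    exact Nat.eq_of_mul_eq_mul_left (pow_pos hp.pos k) h1
  have hnorm : K.Normal := by
    apply Subgroup.normal_of_index_eq_minFac_card
    rw [hidx, hm]
    exact (Nat.Prime.pow_minFac hp (Nat.succ_ne_zero k)).symm
  have hq : Nat.card (A ⧸ K) = p := hidx
  have hz : Nat.card (Multiplicative (ZMod p)) = p := by
    rw [Nat.card_congr Multiplicative.toAdd]
    exact Nat.card_zmod p
  have e : (A ⧸ K) ≃* Multiplicative (ZMod p) := mulEquivOfPrimeCardEq hq hz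
  refine ⟨e.toMonoidHom.comp (QuotientGroup.mk' K), ?_, ?_⟩
  · intro h
    have h2 : K = ⊤ := by
      rw [Subgroup.eq_top_iff']
      intro x
      have h3 := DFunLike.congr_fun h x
      have h4 : e (QuotientGroup.mk' K x) = 1 := h3
      have h5 : QuotientGroup.mk' K x = 1 := by
        rw [← map_one e] at h4
        exact e.injective h4
      exact (QuotientGroup.eq_one_iff x).1 h5
    rw [h2, Subgroup.index_top] at hidx
    exact hp.one_lt.ne hidx
  · intro a ha
    have h1 : QuotientGroup.mk' K a = 1 := (QuotientGroup.eq_one_iff a).2 (hSK ha)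
    show e (QuotientGroup.mk' K a) = 1
    rw [h1, map_one]

open scoped Classical in
theorem ind_prod (p : ℕ) (W : Type) [Fintype W] (B : Type) [Group B]
    (φ : (W → B) →* Multiplicative (ZMod p)) (f : W → B) :
    φ f = ∏ w, φ (Pi.mulSingle w (f w)) := by
  have h1 := Finset.noncommProd_mulSingle f
  have h2 := congrArg φ h1
  rw [Finset.map_noncommProd, Finset.noncommProd_eq_prod] at h2
  exact h2.symm

theorem ind_pgroup (p : ℕ) [Fact p.Prime] (W : Type) [Fintype W] (B : Type) [Group B] [Finite B]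
    (hB : IsPGroup p B) : IsPGroup p (W → B) := by
  obtain ⟨n, hn⟩ := (IsPGroup.iff_card).1 hB
  apply IsPGroup.of_card (n := n * Fintype.card W)
  rw [Nat.card_pi, Finset.prod_const, hn, ← pow_mul]
  rfl

theorem st_IND : ST_IND.{u} := by
  intro p _ G _ P1 _ W _ _ w0 B _ _ hB r1 hr1 H hH β τ hτ
  classical
  have hmem : ∀ (g : G) (w : W), (τ w)⁻¹ * g * τ ((r1 g)⁻¹ • w) ∈ H := by
    intro g w
    rw [hH, map_mul, map_mul, mul_smul, mul_smul, hτ, smul_inv_smul, map_inv, inv_smul_eq_iff, hτ]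
  have hcong : ∀ (a b : G) (ha : a ∈ H) (hb : b ∈ H), a = b → β ⟨a, ha⟩ = β ⟨b, hb⟩ := by
    intro a b ha hb hab
    subst hab
    rfl
  let ρ : G →* WP W B P1 := MonoidHom.mk' (fun g => ⟨fun w => β ⟨_, hmem g w⟩, r1 g⟩) (by
    intro g g'
    apply SemidirectProduct.ext
    · rw [SemidirectProduct.mul_left]
      funext w
      show β ⟨_, hmem (g * g') w⟩ = β ⟨_, hmem g w⟩ * β ⟨_, hmem g' ((r1 g)⁻¹ • w)⟩
      rw [← map_mul]
      apply congrArg β
      apply Subtype.ext
      show (τ w)⁻¹ * (g * g') * τ ((r1 (g * g'))⁻¹ • w) = ((τ w)⁻¹ * g * τ ((r1 g)⁻¹ • w)) *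
        ((τ ((r1 g)⁻¹ • w))⁻¹ * g' * τ ((r1 g')⁻¹ • (r1 g)⁻¹ • w))
      rw [map_mul, mul_inv_rev, mul_smul]
      group
    · rw [SemidirectProduct.mul_right]
      show r1 (g * g') = r1 g * r1 g'
      exact map_mul r1 g g')
  have hρr : ∀ g, (ρ g).right = r1 g := fun g => rfl
  have hρl : ∀ g w, (ρ g).left w = β ⟨_, hmem g w⟩ := fun g w => rfl
  refine ⟨ρ, hρr, fun g w h => rfl, ?_⟩
  intro hχ
  have hS : ∀ f : W → B, ∃ g, r1 g = 1 ∧ ρ g = SemidirectProduct.inl f := by
    let S : Subgroup (W → B) := (r1.ker.map ρ).comap SemidirectProduct.inl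
    have hS : S = ⊤ := by
      by_contra hne
      obtain ⟨φ, hφ1, hφ2⟩ := ind_hom p (W → B) (ind_pgroup p W B hB) S hne
      have hφp := ind_prod p W B φ
      obtain ⟨g, hg1, hg2⟩ := hχ (fun w => φ.comp (MonoidHom.mulSingle (fun _ : W => B) w)) (by
        by_contra hall
        push Not at hall
        apply hφ1
        ext f
        rw [hφp f]
        have h1 : ∀ w ∈ (Finset.univ : Finset W), φ (Pi.mulSingle w (f w)) = 1 := by
          intro w _
          have h2 := DFunLike.congr_fun (hall w) (f w)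
          exact h2
        rw [Finset.prod_eq_one h1]
        rfl)
      apply hg2
      have h3 : (ρ g).left ∈ S := by
        refine ⟨g, hg1, ?_⟩
        apply SemidirectProduct.ext
        · rfl
        · exact hg1
      have h4 := hφ2 _ h3
      rw [hφp] at h4
      exact h4
    intro f
    have h1 : f ∈ S := by rw [hS]; trivial
    obtain ⟨g, hg1, hg2⟩ := h1
    exact ⟨g, hg1, hg2⟩
  intro x
  obtain ⟨g, hg⟩ := hr1 x.right
  obtain ⟨g', hg'1, hg'2⟩ := hS (x.left * ((ρ g).left)⁻¹)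
  refine ⟨g' * g, ?_⟩
  rw [map_mul, hg'2]
  apply SemidirectProduct.ext
  · rw [SemidirectProduct.mul_left, SemidirectProduct.left_inl, SemidirectProduct.right_inl,
      map_one]
    show x.left * ((ρ g).left)⁻¹ * (ρ g).left = x.left
    rw [inv_mul_cancel_right]
  · rw [SemidirectProduct.mul_right, SemidirectProduct.right_inl, one_mul]
    exact hg

end Pool.Agent.Helper26.WR
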